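import Mathlib
import Pool.Agent.HuaDom91.Dom

/-!
Perfect pairs over a field with at least three elements: dominance on lines, inversion, and
directedness.
-/

set_option autoImplicit false

namespace Pool.Agent.HuaPerf95

open Pool.Agent.HuaTop84 Pool.Agent.HuaVal Pool.Agent.HuaOne84 Pool.Agent.HuaDom91

variable {A : Type} [AddCommGroup A] {K : Type} [Field K] [Module K A] {H : HS A}

/-- Three proper subspaces do not cover a space over a field with `2 ≠ 0`. -/
theorem exists_notMem_three {V : Type} [AddCommGroup V] [Module K V] (h2K : (2 : K) ≠ 0)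
    (Q : Fin 3 → Submodule K V) (hQ : ∀ i, Q i ≠ ⊤) : ∃ x, ∀ i, x ∉ Q i := by
  have hex : ∀ i, ∃ x, x ∉ Q i := by
    intro i
    by_contra hcon
    push Not at hcon
    exact hQ i (eq_top_iff.2 fun x _ => hcon x)
  obtain ⟨x, hx0, hx1⟩ : ∃ x, x ∉ Q 0 ∧ x ∉ Q 1 := by
    obtain ⟨a, ha⟩ := hex 0
    obtain ⟨b, hb⟩ := hex 1
    by_cases ha1 : a ∈ Q 1
    · by_cases hb0 : b ∈ Q 0
      · refine ⟨a + b, fun h => ha ?_, fun h => hb ?_⟩
        · have := (Q 0).sub_mem h hb0
          rwa [add_sub_cancel_right] at this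
        · have := (Q 1).sub_mem h ha1
          rwa [add_sub_cancel_left] at this
      · exact ⟨b, hb0, hb⟩
    · exact ⟨a, ha, ha1⟩
  by_cases hx2 : x ∈ Q 2
  · obtain ⟨y, hy⟩ := hex 2
    have hyp : y + x ∉ Q 2 := fun h => hy (by
      have := (Q 2).sub_mem h hx2
      rwa [add_sub_cancel_right] at this)
    have hym : y - x ∉ Q 2 := fun h => hy (by
      have := (Q 2).add_mem h hx2
      rwa [sub_add_cancel] at this)
    by_contra hcon
    push Not at hcon
    have key : ∀ z, z ∉ Q 2 → z ∈ Q 0 ∨ z ∈ Q 1 := by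
      intro z hz
      obtain ⟨i, hi⟩ := hcon z
      fin_cases i
      · exact Or.inl hi
      · exact Or.inr hi
      · exact absurd hi hz
    have d1 : ∀ i, y ∈ Q i → y + x ∈ Q i → x ∈ Q i := by
      intro i h1 h2
      have := (Q i).sub_mem h2 h1
      rwa [add_sub_cancel_left] at this
    have d2 : ∀ i, y ∈ Q i → y - x ∈ Q i → x ∈ Q i := by
      intro i h1 h2
      have := (Q i).sub_mem h1 h2
      rwa [sub_sub_cancel] at this
    have d3 : ∀ i, y + x ∈ Q i → y - x ∈ Q i → x ∈ Q i := by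
      intro i h1 h2
      have h3 := (Q i).sub_mem h1 h2
      have h4 : y + x - (y - x) = (2 : K) • x := by rw [two_smul]; abel
      rwa [h4, (Q i).smul_mem_iff h2K] at h3
    rcases key y hy with a | a <;> rcases key _ hyp with b | b <;> rcases key _ hym with c | c
    · exact hx0 (d1 0 a b)
    · exact hx0 (d1 0 a b)
    · exact hx0 (d2 0 a c)
    · exact hx1 (d3 1 b c)
    · exact hx0 (d3 0 b c)
    · exact hx1 (d2 1 a c)
    · exact hx1 (d1 1 a b)
    · exact hx1 (d1 1 a b)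
  · refine ⟨x, fun i => ?_⟩
    fin_cases i
    · exact hx0
    · exact hx1
    · exact hx2

/-- Approximation for three perfect pairs. -/
theorem approx3 (h2K : (2 : K) ≠ 0) {P R : Fin 3 → Submodule K A}
    (h : ∀ i, Perf H (P i) (R i)) {P' R' : Submodule K A} (h' : Perf H P' R')
    (hle : ⨅ i, R i ≤ R') : ∃ i, R i ≤ R' := by
  by_contra hcon
  push Not at hcon
  have h1 : ∀ i, (P i).comap P'.subtype ≠ ⊤ := by
    intro i htop
    apply hcon i
    intro x hx
    by_cases hx0 : x = 0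
    · rw [hx0]; exact R'.zero_mem
    by_contra hxR
    have h2 := h'.inv_mem' hxR
    have h3 : (⟨H.inv x, h2⟩ : P') ∈ (P i).comap P'.subtype := htop ▸ Submodule.mem_top
    have h4 : H.inv x ∈ P i := h3
    have h5 := (h i).inv_notMem h4 (H.inv_ne x hx0)
    rw [H.inv_inv] at h5
    exact h5 hx
  obtain ⟨y, hy⟩ := exists_notMem_three h2K _ h1
  have hy0 : (y : A) ≠ 0 := by
    intro h0
    apply hy 0
    change (y : A) ∈ P 0
    rw [h0]; exact (P 0).zero_mem
  have h3 : H.inv (y : A) ∈ ⨅ i, R i := by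
    rw [Submodule.mem_iInf]
    intro i
    exact (h i).inv_mem (hy i)
  exact h'.inv_notMem y.2 hy0 (hle h3)

/-- On a line in the direction `c ∉ P` at most two points `z ∉ P` are not `≥ c`. -/
theorem two_points_p {P R : Submodule K A} (h : Perf H P R) (S : H.Scal K) (h2K : (2 : K) ≠ 0)
    {c g : A} (hc : c ∉ P) (t : Fin 3 → K) (ht : Function.Injective t)
    (hz : ∀ i, g + t i • c ∉ P) : ∃ i, N S P (g + t i • c) ≤ N S P c := by
  have hc0 : c ≠ 0 := fun h0 => hc (h0 ▸ P.zero_mem)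
  have hz0 : ∀ i, g + t i • c ≠ 0 := fun i h0 => hz i (h0 ▸ P.zero_mem)
  apply approx3 h2K (fun i => h.refl S (hz0 i)) (h.refl S hc0)
  intro v hv
  rw [Submodule.mem_iInf] at hv
  have e : ∀ i, g + t i • c = (g + t 0 • c) + (t i - t 0) • c := by
    intro i; rw [sub_smul]; abel
  have n1 : t 1 - t 0 ≠ 0 := sub_ne_zero.mpr (ht.ne (by decide))
  have n2 : t 2 - t 0 ≠ 0 := sub_ne_zero.mpr (ht.ne (by decide))
  have n12 : t 1 - t 0 ≠ t 2 - t 0 := fun h0 => ht.ne (show (1 : Fin 3) ≠ 2 by decide)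
    (sub_left_injective h0)
  have v0 := hv 0
  have v1 := hv 1
  have v2 := hv 2
  have z1 := hz 1
  have z2 := hz 2
  rw [e 1] at v1 z1
  rw [e 2] at v2 z2
  exact h.three S h2K hc n1 n2 n12 (hz 0) z1 z2 v0 v1 v2

/-- Inversion of the order: `t ≤ g` implies `U_g t⁻¹ ≥ g`. -/
theorem inv_ge (S : H.Scal K) {P : Submodule K A} {g t : A} (ht : t ≠ 0)
    (h : N S P g ≤ N S P t) : N S P (H.U g (H.inv t)) ≤ N S P g := by
  intro x hx
  rw [mem_N, H.U_U] at hx
  have h1 := h (show H.U (H.inv t) (H.U g x) ∈ N S P g from hx)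
  rw [mem_N, H.U_inv_right t _ ht] at h1
  exact h1

/-- Inversion of the order, the strict case. -/
theorem inv_ge' (S : H.Scal K) {P : Submodule K A} {g t : A} (hg : g ≠ 0) (ht : t ≠ 0)
    (h : N S P g ≤ N S P (H.U g (H.inv t))) : N S P t ≤ N S P g := by
  intro y hy
  have h1 : H.U (H.inv g) (H.U t y) ∈ N S P g := by
    rw [mem_N, H.U_inv_right g _ hg]
    exact hy
  have h2 := h h1
  rw [mem_N, H.U_U, H.U_inv_right g _ hg, H.U_inv_left t _ ht] at h2
  exact h2

/-- If `y ≥ x⁻¹` for a nonzero `x` then `U_y x ≥ y`. -/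
theorem scale_ge (S : H.Scal K) {P : Submodule K A} {x y : A} (hx : x ≠ 0)
    (h : N S P y ≤ N S P (H.inv x)) : N S P (H.U y x) ≤ N S P y := by
  have h1 := inv_ge S (H.inv_ne x hx) h
  rwa [H.inv_inv] at h1

end Pool.Agent.HuaPerf95
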