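import Mathlib

/-!
Abstract preorders on a space over the field with three elements (and on a space over the field
with `p ≥ 5` elements) with the line property, and the existence of dominators.
-/

set_option autoImplicit false

namespace Pool.Agent.HuaPerf95

variable {V : Type} [AddCommGroup V]

section Sets

variable {W : AddSubgroup V} {X X' : Set V}

/-- An element of `X` and an element of `X'` span a line with two points in each. -/
theorem two_two (hXW : ∀ x ∈ X, x ∈ W) (hXW' : ∀ x ∈ X', x ∈ W) (hn' : ∀ x ∈ X', -x ∈ X')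
    (h0 : (0 : V) ∉ X) (h0' : (0 : V) ∉ X') (hn : ∀ x ∈ X, -x ∈ X) (hd : ∀ x ∈ X, x ∉ X')
    (hT : ∀ x ∈ X, ∀ g ∈ W, g ≠ 0 → g ≠ x → g ≠ -x → g ∈ X ∨ g + x ∈ X ∨ g - x ∈ X)
    (hT' : ∀ x ∈ X', ∀ g ∈ W, g ≠ 0 → g ≠ x → g ≠ -x → g ∈ X' ∨ g + x ∈ X' ∨ g - x ∈ X')
    {x x' : V} (hx : x ∈ X) (hx' : x' ∈ X') :
    (x' + x ∈ X ∧ x' - x ∈ X') ∨ (x' + x ∈ X' ∧ x' - x ∈ X) := by
  have a1 : x' ≠ 0 := fun h => h0' (h ▸ hx')
  have a2 : x' ≠ x := fun h => hd x hx (h ▸ hx')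
  have a3 : x' ≠ -x := fun h => hd _ (hn x hx) (h ▸ hx')
  have b1 : x ≠ 0 := fun h => h0 (h ▸ hx)
  have b3 : x ≠ -x' := fun h => hd x hx (h ▸ hn' x' hx')
  have s1 := hT x hx x' (hXW' x' hx') a1 a2 a3
  have s2 := hT' x' hx' x (hXW x hx) b1 (fun h => a2 h.symm) b3
  have e1 : x + x' = x' + x := add_comm _ _
  have e2 : x - x' ∈ X' → x' - x ∈ X' := by
    intro h
    have := hn' _ h
    rwa [neg_sub] at this
  have c1 : x' ∉ X := fun h => hd _ h hx'
  have c2 : x ∉ X' := hd x hx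
  rw [e1] at s2
  have d1 := hd (x' + x)
  have d2 := hd (x' - x)
  tauto

/-- A point outside `X` and `X'` is joined to the points of `X` by lines with all other points
in `X`. -/
theorem lemL (hXW : ∀ x ∈ X, x ∈ W) (hXW' : ∀ x ∈ X', x ∈ W) (hn' : ∀ x ∈ X', -x ∈ X')
    (h0 : (0 : V) ∉ X) (h0' : (0 : V) ∉ X') (hn : ∀ x ∈ X, -x ∈ X) (hd : ∀ x ∈ X, x ∉ X')
    (hT : ∀ x ∈ X, ∀ g ∈ W, g ≠ 0 → g ≠ x → g ≠ -x → g ∈ X ∨ g + x ∈ X ∨ g - x ∈ X)
    (hT' : ∀ x ∈ X', ∀ g ∈ W, g ≠ 0 → g ≠ x → g ≠ -x → g ∈ X' ∨ g + x ∈ X' ∨ g - x ∈ X')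
    {x' c x : V} (hx' : x' ∈ X') (hc : c ∈ W) (hc0 : c ≠ 0) (hcX : c ∉ X) (hcX' : c ∉ X')
    (hx : x ∈ X) : c + x ∈ X := by
  have two : ∀ x ∈ X, ∀ x' ∈ X', (x' + x ∈ X ∧ x' - x ∈ X') ∨ (x' + x ∈ X' ∧ x' - x ∈ X) :=
    fun x hx x' hx' => two_two hXW hXW' hn' h0 h0' hn hd hT hT' hx hx'
  by_contra hcx
  have n1 : c ≠ x := fun h => hcX (h ▸ hx)
  have n2 : c ≠ -x := fun h => hcX (h ▸ hn x hx)
  have s1 : c - x ∈ X := by
    rcases hT x hx c hc hc0 n1 n2 with a | a | a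
    · exact absurd a hcX
    · exact absurd a hcx
    · exact a
  have s2 : c + x ∉ X' := by
    intro hh
    rcases two x hx (c + x) hh with ⟨_, b⟩ | ⟨_, b⟩
    · rw [add_sub_cancel_right] at b; exact hcX' b
    · rw [add_sub_cancel_right] at b; exact hcX b
  have s5 : ∀ n, n ∉ X → n ∉ X' → ∀ z ∈ X', n + z ∉ X ∧ n - z ∉ X := by
    intro n hn1 hn2 z hz
    constructor
    · intro hy
      have e : -(z - (n + z)) = n := by abel
      rcases two (n + z) hy z hz with ⟨_, b⟩ | ⟨_, b⟩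
      · exact hn2 (e ▸ hn' _ b)
      · exact hn1 (e ▸ hn _ b)
    · intro hy
      have e : z + (n - z) = n := by abel
      rcases two (n - z) hy z hz with ⟨b, _⟩ | ⟨b, _⟩
      · rw [e] at b; exact hn1 b
      · rw [e] at b; exact hn2 b
  have t1 := two x hx x' hx'
  have hsub : x' - x ∈ X ∨ x' - x ∈ X' := by tauto
  have hadd : x' + x ∈ X ∨ x' + x ∈ X' := by tauto
  have hsubn : -(x' - x) ≠ c := by
    intro h
    rcases hsub with a | a
    · exact hcX (h ▸ hn _ a)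
    · exact hcX' (h ▸ hn' _ a)
  have hsubp : x' - x ≠ c := by
    intro h
    rcases hsub with a | a
    · exact hcX (h ▸ a)
    · exact hcX' (h ▸ a)
  have haddn : -(x' + x) ≠ c := by
    intro h
    rcases hadd with a | a
    · exact hcX (h ▸ hn _ a)
    · exact hcX' (h ▸ hn' _ a)
  have haddp : x' + x ≠ c := by
    intro h
    rcases hadd with a | a
    · exact hcX (h ▸ a)
    · exact hcX' (h ▸ a)
  have u1 : c - x + x' ∈ X := by
    have g0 : c + x' ≠ 0 := fun h => hcX' (by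
      have e : c = -x' := eq_neg_of_add_eq_zero_left h
      rw [e]; exact hn' _ hx')
    have g1 : c + x' ≠ x := fun h => hsubn (by rw [← h]; abel)
    have g2 : c + x' ≠ -x := fun h => haddn (by
      have e : x = -(c + x') := by rw [h, neg_neg]
      rw [e]; abel)
    rcases hT x hx (c + x') (W.add_mem hc (hXW' _ hx')) g0 g1 g2 with a | a | a
    · exact absurd a (s5 c hcX hcX' x' hx').1
    · have e : c + x' + x = c + x + x' := by abel
      rw [e] at a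
      exact absurd a (s5 (c + x) hcx s2 x' hx').1
    · have e : c + x' - x = c - x + x' := by abel
      rwa [e] at a
  have u2 : c - x - x' ∈ X := by
    have g0 : c - x' ≠ 0 := fun h => hcX' (by
      have e : c = x' := sub_eq_zero.mp h
      rw [e]; exact hx')
    have g1 : c - x' ≠ x := fun h => haddp (by rw [← h]; abel)
    have g2 : c - x' ≠ -x := fun h => hsubp (by
      have e : x = -(c - x') := by rw [h, neg_neg]
      rw [e]; abel)
    rcases hT x hx (c - x') (W.sub_mem hc (hXW' _ hx')) g0 g1 g2 with a | a | a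
    · exact absurd a (s5 c hcX hcX' x' hx').2
    · have e : c - x' + x = c + x - x' := by abel
      rw [e] at a
      exact absurd a (s5 (c + x) hcx s2 x' hx').2
    · have e : c - x' - x = c - x - x' := by abel
      rwa [e] at a
  rcases two (c - x) s1 x' hx' with ⟨_, b⟩ | ⟨b, _⟩
  · have e : -(x' - (c - x)) = c - x - x' := by abel
    exact hd _ u2 (e ▸ hn' _ b)
  · have e : x' + (c - x) = c - x + x' := by abel
    rw [e] at b
    exact hd _ u1 b

/-- In dimension three some point is outside `X` and `X'`. -/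
theorem exists_neither (h3 : ∀ x : V, x + x + x = 0)
    (hXW : ∀ x ∈ X, x ∈ W) (hXW' : ∀ x ∈ X', x ∈ W) (hn' : ∀ x ∈ X', -x ∈ X')
    (h0 : (0 : V) ∉ X) (h0' : (0 : V) ∉ X') (hn : ∀ x ∈ X, -x ∈ X) (hd : ∀ x ∈ X, x ∉ X')
    (hT : ∀ x ∈ X, ∀ g ∈ W, g ≠ 0 → g ≠ x → g ≠ -x → g ∈ X ∨ g + x ∈ X ∨ g - x ∈ X)
    (hT' : ∀ x ∈ X', ∀ g ∈ W, g ≠ 0 → g ≠ x → g ≠ -x → g ∈ X' ∨ g + x ∈ X' ∨ g - x ∈ X')
    {m m' w : V} (hm : m ∈ X) (hm' : m' ∈ X') (hw : w ∈ W)
    (hind : ∀ r s : ZMod 3, w ≠ (r.val : ℕ) • m + (s.val : ℕ) • m') :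
    ∃ c ∈ W, c ≠ 0 ∧ c ∉ X ∧ c ∉ X' := by
  classical
  by_contra hcon
  push Not at hcon
  have hall : ∀ z ∈ W, z ≠ 0 → z ∉ X → z ∈ X' := hcon
  have two : ∀ x ∈ X, ∀ x' ∈ X', (x' + x ∈ X ∧ x' - x ∈ X') ∨ (x' + x ∈ X' ∧ x' - x ∈ X) :=
    fun x hx x' hx' => two_two hXW hXW' hn' h0 h0' hn hd hT hT' hx hx'
  -- the indicator
  set f : V → ℤ := fun z => if z ∈ X then 1 else 0 with hf
  have f1 : ∀ z, z ∈ X → f z = 1 := fun z hz => if_pos hz
  have f0 : ∀ z, z ∉ X → f z = 0 := fun z hz => if_neg hz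
  have fneg : ∀ z, f (-z) = f z := by
    intro z
    by_cases hz : z ∈ X
    · rw [f1 z hz, f1 _ (hn z hz)]
    · rw [f0 z hz, f0 _ (fun h => hz (by have := hn _ h; rwa [neg_neg] at this))]
  have dbl : ∀ z : V, z + z = -z := fun z => eq_neg_of_add_eq_zero_left (h3 z)
  have key : ∀ a ∈ W, ∀ b ∈ W, a ≠ 0 → b ≠ 0 → a ≠ b → a ≠ -b →
      ∃ k : ℤ, f a + f b + f (a + b) + f (a - b) = 2 * k := by
    intro a ha b hb ha0 hb0 hab hab'
    have hsw : a - b ≠ 0 := sub_ne_zero.mpr hab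
    have haw : a + b ≠ 0 := fun h => hab' (eq_neg_of_add_eq_zero_left h)
    have same : (a ∈ X ↔ b ∈ X) → (a + b ∈ X ↔ a - b ∈ X) := by
      intro hiff
      have e1 : a - b + (a + b) = -a := by rw [← dbl a]; abel
      have e2 : a - b - (a + b) = b := by
        have : a - b - (a + b) = -(b + b) := by abel
        rw [this, dbl b, neg_neg]
      have e3 : a + b + (a - b) = -a := by rw [← dbl a]; abel
      have e4 : a + b - (a - b) = -b := by
        have : a + b - (a - b) = b + b := by abel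
        rw [this, dbl b]
      have nb : -b ∈ X ↔ b ∈ X :=
        ⟨fun h => by have := hn _ h; rwa [neg_neg] at this, fun h => hn _ h⟩
      have na : -a ∈ X ↔ a ∈ X :=
        ⟨fun h => by have := hn _ h; rwa [neg_neg] at this, fun h => hn _ h⟩
      constructor
      · intro h1
        by_contra h2
        have h2' := hall _ (W.sub_mem ha hb) hsw h2
        rcases two _ h1 _ h2' with ⟨p, q⟩ | ⟨p, q⟩
        · rw [e1, na] at p; rw [e2] at q
          exact hd _ (hiff.1 p) q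
        · rw [e1] at p; rw [e2] at q
          exact hd _ (hn _ (hiff.2 q)) p
      · intro h1
        by_contra h2
        have h2' := hall _ (W.add_mem ha hb) haw h2
        rcases two _ h1 _ h2' with ⟨p, q⟩ | ⟨p, q⟩
        · rw [e3, na] at p; rw [e4] at q
          exact hd _ (hn _ (hiff.1 p)) q
        · rw [e3] at p; rw [e4, nb] at q
          exact hd _ (hn _ (hiff.2 q)) p
    by_cases haX : a ∈ X
    · by_cases hbX : b ∈ X
      · have s := same (iff_of_true haX hbX)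
        by_cases hs : a + b ∈ X
        · exact ⟨2, by rw [f1 a haX, f1 b hbX, f1 _ hs, f1 _ (s.1 hs)]; norm_num⟩
        · exact ⟨1, by rw [f1 a haX, f1 b hbX, f0 _ hs, f0 _ (fun h => hs (s.2 h))]; norm_num⟩
      · have hbX' := hall b hb hb0 hbX
        rcases two a haX b hbX' with ⟨p, q⟩ | ⟨p, q⟩
        · refine ⟨1, ?_⟩
          have e : a - b = -(b - a) := by abel
          rw [f1 a haX, f0 b hbX, add_comm a b, f1 _ p, e, fneg, f0 _ (fun h => hd _ h q)]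
          norm_num
        · refine ⟨1, ?_⟩
          have e : a - b = -(b - a) := by abel
          rw [f1 a haX, f0 b hbX, add_comm a b, f0 _ (fun h => hd _ h p), e, fneg, f1 _ q]
          norm_num
    · have haX' := hall a ha ha0 haX
      by_cases hbX : b ∈ X
      · rcases two b hbX a haX' with ⟨p, q⟩ | ⟨p, q⟩
        · refine ⟨1, ?_⟩
          rw [f0 a haX, f1 b hbX, f1 _ p, f0 _ (fun h => hd _ h q)]
          norm_num
        · refine ⟨1, ?_⟩
          rw [f0 a haX, f1 b hbX, f0 _ (fun h => hd _ h p), f1 _ q]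
          norm_num
      · have s := same (iff_of_false haX hbX)
        by_cases hs : a + b ∈ X
        · exact ⟨1, by rw [f0 a haX, f0 b hbX, f1 _ hs, f1 _ (s.1 hs)]; norm_num⟩
        · exact ⟨0, by rw [f0 a haX, f0 b hbX, f0 _ hs, f0 _ (fun h => hs (s.2 h))]; norm_num⟩
  -- independence
  have hmW := hXW m hm
  have hmW' := hXW' m' hm'
  have hm0 : m ≠ 0 := fun h => h0 (h ▸ hm)
  have hm0' : m' ≠ 0 := fun h => h0' (h ▸ hm')
  have hmm : m ≠ m' := fun h => hd m hm (h ▸ hm')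
  have hmm' : m ≠ -m' := fun h => hd m hm (h ▸ hn' _ hm')
  have i00 := hind 0 0
  have i01 := hind 0 1
  have i02 := hind 0 2
  have i10 := hind 1 0
  have i11 := hind 1 1
  have i12 := hind 1 2
  have i20 := hind 2 0
  have i21 := hind 2 1
  have i22 := hind 2 2
  have v0 : (0 : ZMod 3).val = 0 := rfl
  have v1 : (1 : ZMod 3).val = 1 := rfl
  have v2 : (2 : ZMod 3).val = 2 := rfl
  simp only [v0, v1, v2, zero_nsmul, one_nsmul, two_nsmul, zero_add, add_zero, dbl, neg_zero]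
    at i00 i01 i02 i10 i11 i12 i20 i21 i22
  -- the seven lines
  obtain ⟨k1, L1⟩ := key m hmW m' hmW' hm0 hm0' hmm hmm'
  obtain ⟨k2, L2⟩ := key m hmW w hw hm0 i00 (fun h => i10 h.symm) (fun h => i20 (by
    rw [h, neg_neg]))
  have hmw' : m' + w ≠ 0 := fun h => i02 (eq_neg_of_add_eq_zero_right h)
  have hmw'' : m' - w ≠ 0 := fun h => i01 (sub_eq_zero.mp h).symm
  have hmw : m + w ≠ 0 := fun h => i20 (eq_neg_of_add_eq_zero_right h)
  have hmw2 : m - w ≠ 0 := fun h => i10 (sub_eq_zero.mp h).symm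
  obtain ⟨k3, L3⟩ := key m hmW (m' + w) (W.add_mem hmW' hw) hm0 hmw'
    (fun h => i12 (by rw [h]; abel)) (fun h => i22 (by rw [h]; abel))
  obtain ⟨k4, L4⟩ := key m hmW (m' - w) (W.sub_mem hmW' hw) hm0 hmw''
    (fun h => i21 (by rw [h]; abel)) (fun h => i11 (by rw [h]; abel))
  obtain ⟨k5, L5⟩ := key m' hmW' w hw hm0' i00 (fun h => i01 h.symm) (fun h => i02 (by
    rw [h, neg_neg]))
  obtain ⟨k6, L6⟩ := key m' hmW' (m + w) (W.add_mem hmW hw) hm0' hmw
    (fun h => i21 (by rw [h]; abel)) (fun h => i22 (by rw [h]; abel))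
  obtain ⟨k7, L7⟩ := key m' hmW' (m - w) (W.sub_mem hmW hw) hm0' hmw2
    (fun h => i12 (by rw [h]; abel)) (fun h => i11 (by rw [h]; abel))
  have r1 : f (m' + (m + w)) = f (m + (m' + w)) := by congr 1; abel
  have r3 : f (m' - (m + w)) = f (m - (m' - w)) := by
    rw [← fneg]; congr 1; abel
  have r4 : f (m' + (m - w)) = f (m + (m' - w)) := by congr 1; abel
  have r5 : f (m' - (m - w)) = f (m - (m' + w)) := by
    rw [← fneg]; congr 1; abel
  rw [r1, r3] at L6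
  rw [r4, r5] at L7
  have q1 := f1 m hm
  have q0 := f0 m' (fun h => hd _ h hm')
  omega

end Sets

section Dom

variable {α : Type} [PartialOrder α] {F : V → α} {W : AddSubgroup V}

/-- The line property over the field with three elements; a smaller value of `F` is more
dominant. -/
structure Ord3 (W : AddSubgroup V) (F : V → α) : Prop where
  neg : ∀ z, F (-z) = F z
  line : ∀ c ∈ W, ∀ g ∈ W, c ≠ 0 → g ≠ 0 → g ≠ c → g ≠ -c →
    F g ≤ F c ∨ F (g + c) ≤ F c ∨ F (g - c) ≤ F c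

/-- A maximal point of `W`. -/
def Mx (W : AddSubgroup V) (F : V → α) (m : V) : Prop :=
  m ∈ W ∧ m ≠ 0 ∧ ∀ z ∈ W, z ≠ 0 → F z ≤ F m → F z = F m

/-- The class of a maximal point. -/
def Cl (W : AddSubgroup V) (F : V → α) (m : V) : Set V := {z | z ∈ W ∧ z ≠ 0 ∧ F z = F m}

theorem exists_mx (hW : (W : Set V).Finite) {c : V} (hc : c ∈ W) (hc0 : c ≠ 0) :
    ∃ m, Mx W F m ∧ F m ≤ F c := by
  have hfin : ({z | z ∈ W ∧ z ≠ 0 ∧ F z ≤ F c} : Set V).Finite := hW.subset fun z hz => hz.1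
  obtain ⟨m, hm, hmin⟩ := Set.Finite.exists_minimalFor F _ hfin ⟨c, hc, hc0, le_rfl⟩
  refine ⟨m, ⟨hm.1, hm.2.1, fun z hz hz0 hle => ?_⟩, hm.2.2⟩
  exact le_antisymm hle (hmin ⟨hz, hz0, hle.trans hm.2.2⟩ hle)

section

variable (O : Ord3 W F) {m m' : V} (hm : Mx W F m) (hm' : Mx W F m') (hne : F m ≠ F m')

include O in
theorem Cl_neg {m x : V} (hx : x ∈ Cl W F m) : -x ∈ Cl W F m :=
  ⟨W.neg_mem hx.1, neg_ne_zero.mpr hx.2.1, by rw [O.neg]; exact hx.2.2⟩

include O hm in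
theorem Cl_line {x : V} (hx : x ∈ Cl W F m) {g : V} (hg : g ∈ W) (h0 : g ≠ 0) (h1 : g ≠ x)
    (h2 : g ≠ -x) : g ∈ Cl W F m ∨ g + x ∈ Cl W F m ∨ g - x ∈ Cl W F m := by
  rcases O.line x hx.1 g hg hx.2.1 h0 h1 h2 with a | a | a
  · exact Or.inl ⟨hg, h0, hm.2.2 g hg h0 (a.trans hx.2.2.le)⟩
  · refine Or.inr (Or.inl ?_)
    have hn : g + x ≠ 0 := fun h => h2 (eq_neg_of_add_eq_zero_left h)
    exact ⟨W.add_mem hg hx.1, hn, hm.2.2 _ (W.add_mem hg hx.1) hn (a.trans hx.2.2.le)⟩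
  · refine Or.inr (Or.inr ?_)
    have hn : g - x ≠ 0 := sub_ne_zero.mpr h1
    exact ⟨W.sub_mem hg hx.1, hn, hm.2.2 _ (W.sub_mem hg hx.1) hn (a.trans hx.2.2.le)⟩

include O hm hm' hne in
/-- A point which is in neither of two distinct maximal classes is below the first one. -/
theorem lemM_aux {c : V} (hc : c ∈ W) (hc0 : c ≠ 0) (h1 : F c ≠ F m) (h2 : F c ≠ F m') :
    F m ≤ F c := by
  have hcX : c ∉ Cl W F m := fun h => h1 h.2.2
  have hcX' : c ∉ Cl W F m' := fun h => h2 h.2.2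
  have hmX : m ∈ Cl W F m := ⟨hm.1, hm.2.1, rfl⟩
  have L : ∀ x ∈ Cl W F m, c + x ∈ Cl W F m := fun x hx =>
    lemL (W := W) (X := Cl W F m) (X' := Cl W F m') (fun _ h => h.1) (fun _ h => h.1)
      (fun _ h => Cl_neg O h) (fun h => h.2.1 rfl) (fun h => h.2.1 rfl) (fun _ h => Cl_neg O h)
      (fun _ h h' => hne (h.2.2.symm.trans h'.2.2))
      (fun _ h _ hg a b d => Cl_line O hm h hg a b d)
      (fun _ h _ hg a b d => Cl_line O hm' h hg a b d)
      (x' := m') ⟨hm'.1, hm'.2.1, rfl⟩ hc hc0 hcX hcX' hx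
  have e1 : m ≠ c := fun h => h1 (by rw [h])
  have e2 : m ≠ -c := fun h => h1 (by rw [h, O.neg])
  rcases O.line c hc m hm.1 hc0 hm.2.1 e1 e2 with a | a | a
  · exact a
  · have := (L m hmX).2.2
    rw [add_comm c m] at this
    rwa [this] at a
  · have := (L (-m) (Cl_neg O hmX)).2.2
    rw [← O.neg, neg_add, neg_neg, neg_add_eq_sub] at this
    rwa [this] at a

include O hm hm' hne in
/-- The structure of `W` when there are two maximal classes. -/
theorem lemM {c : V} (hc : c ∈ W) (hc0 : c ≠ 0) :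
    F c = F m ∨ F c = F m' ∨ (F m ≤ F c ∧ F m' ≤ F c) := by
  by_cases h1 : F c = F m
  · exact Or.inl h1
  by_cases h2 : F c = F m'
  · exact Or.inr (Or.inl h2)
  exact Or.inr (Or.inr ⟨lemM_aux O hm hm' hne hc hc0 h1 h2,
    lemM_aux O hm' hm (fun h => hne h.symm) hc hc0 h2 h1⟩)

end

theorem Ord3.mono {D : AddSubgroup V} (O : Ord3 W F) (hD : D ≤ W) : Ord3 D F where
  neg := O.neg
  line := fun c hc g hg => O.line c (hD hc) g (hD hg)

/-- The existence of a dominator over the field with three elements. -/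
theorem dominator3 (h3 : ∀ x : V, x + x + x = 0) (O : Ord3 W F) (hW : (W : Set V).Finite)
    {D : AddSubgroup V} (hD : D ≤ W) (G : V → V → V)
    (hG : ∀ g ∈ D, ∀ o ∈ D, g ≠ 0 → o ≠ 0 → G g o ∈ W ∧ G g o ≠ 0)
    (hG1 : ∀ g ∈ D, ∀ o ∈ D, g ≠ 0 → o ≠ 0 → F g ≤ F o → F (G g o) ≤ F g)
    (hG2 : ∀ g ∈ D, ∀ o ∈ D, g ≠ 0 → o ≠ 0 → F g ≤ F (G g o) → F o ≤ F g)
    (hdim : ∀ m ∈ D, ∀ m' ∈ D, ∃ w ∈ D,
      ∀ r s : ZMod 3, w ≠ (r.val : ℕ) • m + (s.val : ℕ) • m')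
    (hne : ∃ z ∈ D, z ≠ 0) : ∃ y ∈ W, y ≠ 0 ∧ ∀ d ∈ D, d ≠ 0 → F y ≤ F d := by
  have OD : Ord3 D F := O.mono hD
  have hDf : (D : Set V).Finite := hW.subset hD
  obtain ⟨z, hz, hz0⟩ := hne
  obtain ⟨g, hg, -⟩ := exists_mx (F := F) hDf hz hz0
  by_cases hall : ∀ d ∈ D, d ≠ 0 → F g ≤ F d
  · exact ⟨g, hD hg.1, hg.2.1, hall⟩
  push Not at hall
  obtain ⟨d, hd, hd0, hgd⟩ := hall
  obtain ⟨m', hm', hm'd⟩ := exists_mx (F := F) hDf hd hd0
  have hne : F g ≠ F m' := fun h => hgd (h.le.trans hm'd)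
  have hgm' : ¬ F g ≤ F m' := fun h => hne (hm'.2.2 g hg.1 hg.2.1 h)
  have hm'g : ¬ F m' ≤ F g := fun h => hne (hg.2.2 m' hm'.1 hm'.2.1 h).symm
  obtain ⟨w, hw, hind⟩ := hdim g hg.1 m' hm'.1
  obtain ⟨o, ho, ho0, hoX, hoX'⟩ := exists_neither (W := D) (X := Cl D F g) (X' := Cl D F m')
    h3 (fun _ h => h.1) (fun _ h => h.1)
    (fun _ h => Cl_neg OD h) (fun h => h.2.1 rfl) (fun h => h.2.1 rfl) (fun _ h => Cl_neg OD h)
    (fun _ h h' => hne (h.2.2.symm.trans h'.2.2))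
    (fun _ h _ hg' a b d => Cl_line OD hg h hg' a b d)
    (fun _ h _ hg' a b d => Cl_line OD hm' h hg' a b d)
    (m := g) (m' := m') ⟨hg.1, hg.2.1, rfl⟩ ⟨hm'.1, hm'.2.1, rfl⟩ hw hind
  have ho1 : F o ≠ F g := fun h => hoX ⟨ho, ho0, h⟩
  have hgo : F g ≤ F o := by
    rcases lemM OD hg hm' hne ho ho0 with a | a | a
    · exact a.ge
    · exact absurd ⟨ho, ho0, a⟩ hoX'
    · exact a.1
  obtain ⟨hyW, hy0⟩ := hG g hg.1 o ho hg.2.1 ho0
  set y := G g o with hy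
  have hyg : F y ≤ F g := hG1 g hg.1 o ho hg.2.1 ho0 hgo
  have hgy : ¬ F g ≤ F y := fun h => ho1 (le_antisymm (hG2 g hg.1 o ho hg.2.1 ho0 h) hgo)
  obtain ⟨m1, hm1, hm1y⟩ := exists_mx (F := F) hW hyW hy0
  by_cases hall1 : ∀ d ∈ D, d ≠ 0 → F m1 ≤ F d
  · exact ⟨m1, hm1.1, hm1.2.1, hall1⟩
  exfalso
  push Not at hall1
  obtain ⟨c, hc, hc0, hm1c⟩ := hall1
  obtain ⟨m1', hm1', hm1'c⟩ := exists_mx (F := F) hW (hD hc) hc0
  have hne1 : F m1 ≠ F m1' := fun h => hm1c (h.le.trans hm1'c)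
  -- `g` is below both classes
  have hg1 : F g ≠ F m1 := fun h => hgy (h.le.trans hm1y)
  have hg1' : F g ≠ F m1' := by
    intro h
    have := hm1'.2.2 y hyW hy0 (hyg.trans h.le)
    exact hgy (h.trans this.symm).le
  have hgb : F m1 ≤ F g ∧ F m1' ≤ F g := by
    rcases lemM O hm1 hm1' hne1 (hD hg.1) hg.2.1 with a | a | a
    · exact absurd a hg1
    · exact absurd a hg1'
    · exact a
  -- `m'` is below both classes
  have hm'b : F m1 ≤ F m' := by
    rcases lemM O hm1 hm1' hne1 (hD hm'.1) hm'.2.1 with a | a | a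
    · exact a.ge
    · exact absurd (a.le.trans hgb.2) hm'g
    · exact a.1
  rcases lemM OD hg hm' hne hc hc0 with a | a | a
  · exact hm1c (hgb.1.trans a.ge)
  · exact hm1c (hm'b.trans a.ge)
  · exact hm1c (hgb.1.trans a.1)

end Dom

end Pool.Agent.HuaPerf95
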