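import Mathlib
import Pool.Agent.HuaPerf95.Dir
import Pool.Agent.HuaPerf95.Order

/-!
Directedness: every finite set of a Hua system of odd exponent has a dominator in a finite set
which does not depend on the perfect pair.
-/

set_option autoImplicit false

namespace Pool.Agent.HuaPerf95

open Pool.Agent.HuaTop84 Pool.Agent.HuaVal Pool.Agent.HuaOne84 Pool.Agent.HuaDom91

variable {A : Type} [AddCommGroup A]

theorem inj3 {K : Type} {a b c : K} (h1 : a ≠ b) (h2 : a ≠ c) (h3 : b ≠ c) :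
    Function.Injective ![a, b, c] := by
  intro i j hij
  fin_cases i <;> fin_cases j
  · rfl
  · exact absurd hij h1
  · exact absurd hij h2
  · exact absurd hij.symm h1
  · rfl
  · exact absurd hij h3
  · exact absurd hij.symm h2
  · exact absurd hij.symm h3
  · rfl

theorem prop5 {a1 a2 a3 a4 b1 b2 b3 b4 : Prop} (x1 : a1 ∨ a2 ∨ a3) (x2 : a1 ∨ a2 ∨ a4)
    (x3 : a1 ∨ a3 ∨ a4) (x4 : a2 ∨ a3 ∨ a4) (y1 : b1 ∨ b2) (y2 : b1 ∨ b3) (y3 : b1 ∨ b4)
    (y4 : b2 ∨ b3) (y5 : b2 ∨ b4) (y6 : b3 ∨ b4) (g1 : a1 → ¬ b1) (g2 : a2 → ¬ b2)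
    (g3 : a3 → ¬ b3) (g4 : a4 → ¬ b4) : False := by
  by_cases h1 : a1 <;> by_cases h2 : a2 <;> by_cases h3 : a3 <;> by_cases h4 : a4 <;> simp_all

section Five

variable {K : Type} [Field K] [Module K A] {H : HS A}

/-- Characteristic different from `2`, `3`: a maximal point of a subspace is a maximum. -/
theorem max5 {P R : Submodule K A} (h : Perf H P R) (S : H.Scal K) (h2K : (2 : K) ≠ 0)
    (h3K : (3 : K) ≠ 0) {W : Submodule K A} (hWP : ∀ x ∈ W, x ∈ P → x = 0) {m : A} (hm : m ∈ W)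
    (hm0 : m ≠ 0) (hmax : ∀ z ∈ W, z ≠ 0 → N S P z ≤ N S P m → N S P z = N S P m) {c : A}
    (hc : c ∈ W) (hc0 : c ≠ 0) : N S P m ≤ N S P c := by
  by_cases hcm : ∃ r : K, c = r • m
  · obtain ⟨r, hr⟩ := hcm
    have hr0 : r ≠ 0 := fun h0 => hc0 (by rw [hr, h0, zero_smul])
    rw [hr, N_smul S P hr0]
  push Not at hcm
  by_contra hcon
  have hmP : m ∉ P := fun h0 => hm0 (hWP m hm h0)
  have hcP : c ∉ P := fun h0 => hc0 (hWP c hc h0)
  have n1 : ∀ t : K, c + t • m ≠ 0 := by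
    intro t h0
    apply hcm (-t)
    rw [neg_smul]
    exact eq_neg_of_add_eq_zero_left h0
  have w1 : ∀ t : K, c + t • m ∈ W := fun t => W.add_mem hc (W.smul_mem t hm)
  have p1 : ∀ t : K, c + t • m ∉ P := fun t h0 => n1 t (hWP _ (w1 t) h0)
  have n2 : ∀ s : K, m + s • c ≠ 0 := by
    intro s h0
    by_cases hs : s = 0
    · rw [hs, zero_smul, add_zero] at h0
      exact hm0 h0
    · apply hcm (-s⁻¹)
      have h1 : s • c = -m := eq_neg_of_add_eq_zero_right h0
      have h2 : s⁻¹ • (s • c) = s⁻¹ • (-m) := by rw [h1]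
      rw [smul_smul, inv_mul_cancel₀ hs, one_smul, smul_neg] at h2
      rw [neg_smul]
      exact h2
  have p2 : ∀ s : K, m + s • c ∉ P :=
    fun s h0 => n2 s (hWP _ (W.add_mem hm (W.smul_mem s hc)) h0)
  have fa : ∀ t1 t2 t3 : K, t1 ≠ t2 → t1 ≠ t3 → t2 ≠ t3 →
      N S P (c + t1 • m) ≤ N S P m ∨ N S P (c + t2 • m) ≤ N S P m ∨
        N S P (c + t3 • m) ≤ N S P m := by
    intro t1 t2 t3 h12 h13 h23
    have hinj : Function.Injective ![t1, t2, t3] := inj3 h12 h13 h23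
    obtain ⟨i, hi⟩ := two_points_p h S h2K (g := c) hmP ![t1, t2, t3] hinj (fun i => p1 _)
    fin_cases i
    · exact Or.inl hi
    · exact Or.inr (Or.inl hi)
    · exact Or.inr (Or.inr hi)
  have fb : ∀ t1 t2 : K, t1 ≠ 0 → t2 ≠ 0 → t1 ≠ t2 →
      N S P (c + t1 • m) ≤ N S P c ∨ N S P (c + t2 • m) ≤ N S P c := by
    intro t1 t2 h1 h2 h12
    have e : ∀ t : K, t ≠ 0 → N S P (m + t⁻¹ • c) = N S P (c + t • m) := by
      intro t ht
      rw [← N_smul S P ht (m + t⁻¹ • c), smul_add, smul_smul, mul_inv_cancel₀ ht, one_smul,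
        add_comm]
    have hinj : Function.Injective ![0, t1⁻¹, t2⁻¹] := by
      exact inj3 (inv_ne_zero h1).symm (inv_ne_zero h2).symm fun h0 => h12 (inv_injective h0)
    obtain ⟨i, hi⟩ := two_points_p h S h2K (g := m) hcP ![0, t1⁻¹, t2⁻¹] hinj (fun i => p2 _)
    fin_cases i
    · exfalso
      apply hcon
      have : m + (![0, t1⁻¹, t2⁻¹] : Fin 3 → K) 0 • c = m := by simp
      change N S P (m + (![0, t1⁻¹, t2⁻¹] : Fin 3 → K) 0 • c) ≤ N S P c at hi
      rwa [this] at hi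
    · left
      rw [← e t1 h1]
      exact hi
    · right
      rw [← e t2 h2]
      exact hi
  have good : ∀ t : K, N S P (c + t • m) ≤ N S P m → ¬ N S P (c + t • m) ≤ N S P c := by
    intro t h1 h2
    have h3 := hmax _ (w1 t) (n1 t) h1
    rw [h3] at h2
    exact hcon h2
  have m1 : (1 : K) ≠ -1 := fun h0 => h2K (by
    have : (1 : K) + 1 = 0 := by nth_rewrite 1 [h0]; ring
    rw [← this]; norm_num)
  have k12 : (1 : K) ≠ 2 := fun h0 => one_ne_zero (α := K) (by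
    have : (2 : K) - 1 = 0 := by rw [← h0]; ring
    rw [← this]; norm_num)
  have k1m2 : (1 : K) ≠ -2 := fun h0 => h3K (by
    have : (1 : K) + 2 = 0 := by nth_rewrite 1 [h0]; ring
    rw [← this]; norm_num)
  have k2m1 : (2 : K) ≠ -1 := fun h0 => h3K (by
    have : (2 : K) + 1 = 0 := by rw [h0]; ring
    rw [← this]; norm_num)
  have k2m2 : (2 : K) ≠ -2 := fun h0 => h2K (by
    have h4 : (2 : K) * 2 = 0 := by
      have : (2 : K) + 2 = 0 := by nth_rewrite 1 [h0]; ring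
      rw [← this]; ring
    rcases mul_eq_zero.mp h4 with h5 | h5 <;> exact h5)
  have km1m2 : (-1 : K) ≠ -2 := fun h0 => k12 (neg_injective h0)
  have k10 : (1 : K) ≠ 0 := one_ne_zero
  have km10 : (-1 : K) ≠ 0 := neg_ne_zero.mpr one_ne_zero
  have km20 : (-2 : K) ≠ 0 := neg_ne_zero.mpr h2K
  have a1 := fa 1 2 (-1) k12 m1 k2m1
  have a2 := fa 1 2 (-2) k12 k1m2 k2m2
  have a3 := fa 1 (-1) (-2) m1 k1m2 km1m2
  have a4 := fa 2 (-1) (-2) k2m1 k2m2 km1m2
  have b1 := fb 1 2 k10 h2K k12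
  have b2 := fb 1 (-1) k10 km10 m1
  have b3 := fb 1 (-2) k10 km20 k1m2
  have b4 := fb 2 (-1) h2K km10 k2m1
  have b5 := fb 2 (-2) h2K km20 k2m2
  have b6 := fb (-1) (-2) km10 km20 km1m2
  exact prop5 a1 a2 a3 a4 b1 b2 b3 b4 b5 b6 (good 1) (good 2) (good (-1)) (good (-2))

end Five

section Pair

variable {p : ℕ} [hp : Fact p.Prime] [Module (ZMod p) A] {H : HS A}

theorem span_finite (T : Set A) (hT : T.Finite) :
    ((Submodule.span (ZMod p) T : Submodule (ZMod p) A) : Set A).Finite := by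
  have : NeZero p := ⟨hp.out.ne_zero⟩
  have h1 : (Submodule.span (ZMod p) T).FG := ⟨hT.toFinset, by rw [Set.Finite.coe_toFinset]⟩
  have : Module.Finite (ZMod p) (Submodule.span (ZMod p) T) := Module.Finite.iff_fg.mpr h1
  have : Finite (Submodule.span (ZMod p) T) := Module.finite_of_finite (ZMod p)
  exact Set.toFinite _

/-- Two elements have a dominator in a finite set which does not depend on the pair. -/
theorem pair_dom5 (S : H.Scal (ZMod p)) (h2 : (2 : ZMod p) ≠ 0) (h3 : (3 : ZMod p) ≠ 0) {a b : A}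
    (ha : a ≠ 0) (hb : b ≠ 0) : ∃ Ψ : Finset A, ∀ P R : Submodule (ZMod p) A, Perf H P R →
      (∀ x ∈ Submodule.span (ZMod p) (Ψ : Set A), x ∈ P → x = 0) →
      ∃ z ∈ Ψ, z ≠ 0 ∧ N S P z ≤ N S P a ∧ N S P z ≤ N S P b := by
  have hfin := span_finite (p := p) ({a, b} : Set A) (Set.toFinite _)
  refine ⟨hfin.toFinset, fun P R h hP => ?_⟩
  rw [Set.Finite.coe_toFinset, Submodule.span_eq] at hP
  have haW : a ∈ Submodule.span (ZMod p) ({a, b} : Set A) := Submodule.subset_span (by simp)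
  have hbW : b ∈ Submodule.span (ZMod p) ({a, b} : Set A) := Submodule.subset_span (by simp)
  obtain ⟨m, hm, -⟩ := exists_mx (W := (Submodule.span (ZMod p) ({a, b} : Set A)).toAddSubgroup)
    (F := fun z => N S P z) hfin haW ha
  refine ⟨m, by rw [Set.Finite.mem_toFinset]; exact hm.1, hm.2.1, ?_, ?_⟩
  · exact max5 h S h2 h3 hP hm.1 hm.2.1 hm.2.2 haW ha
  · exact max5 h S h2 h3 hP hm.1 hm.2.1 hm.2.2 hbW hb

end Pair

section Three

variable [Module (ZMod 3) A] {H : HS A}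

theorem N_neg (S : H.Scal (ZMod 3)) (P : Submodule (ZMod 3) A) (z : A) :
    N S P (-z) = N S P z := by
  ext x
  rw [mem_N, mem_N, H.U_neg]

theorem ord3 {P R : Submodule (ZMod 3) A} (h : Perf H P R) (S : H.Scal (ZMod 3))
    {W : Submodule (ZMod 3) A} (hWP : ∀ x ∈ W, x ∈ P → x = 0) :
    Ord3 W.toAddSubgroup (fun z => N S P z) where
  neg := fun z => N_neg S P z
  line := by
    intro c hc g hg hc0 hg0 hgc hgc'
    have hcP : c ∉ P := fun h0 => hc0 (hWP c hc h0)
    have n1 : g + c ≠ 0 := fun h0 => hgc' (eq_neg_of_add_eq_zero_left h0)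
    have n2 : g - c ≠ 0 := sub_ne_zero.mpr hgc
    have hinj : Function.Injective ![(0 : ZMod 3), 1, -1] := by decide
    have e0 : g + (![(0 : ZMod 3), 1, -1] : Fin 3 → ZMod 3) 0 • c = g := by simp
    have e1 : g + (![(0 : ZMod 3), 1, -1] : Fin 3 → ZMod 3) 1 • c = g + c := by simp
    have e2 : g + (![(0 : ZMod 3), 1, -1] : Fin 3 → ZMod 3) 2 • c = g - c := by
      simp [sub_eq_add_neg]
    have hz : ∀ i, g + (![(0 : ZMod 3), 1, -1] : Fin 3 → ZMod 3) i • c ∉ P := by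
      intro i
      fin_cases i
      · change g + (![(0 : ZMod 3), 1, -1] : Fin 3 → ZMod 3) 0 • c ∉ P
        rw [e0]; exact fun h0 => hg0 (hWP g hg h0)
      · change g + (![(0 : ZMod 3), 1, -1] : Fin 3 → ZMod 3) 1 • c ∉ P
        rw [e1]; exact fun h0 => n1 (hWP _ (W.add_mem hg hc) h0)
      · change g + (![(0 : ZMod 3), 1, -1] : Fin 3 → ZMod 3) 2 • c ∉ P
        rw [e2]; exact fun h0 => n2 (hWP _ (W.sub_mem hg hc) h0)
    obtain ⟨i, hi⟩ := two_points_p h S (by decide) hcP ![(0 : ZMod 3), 1, -1] hinj hz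
    fin_cases i
    · change N S P (g + (![(0 : ZMod 3), 1, -1] : Fin 3 → ZMod 3) 0 • c) ≤ N S P c at hi
      rw [e0] at hi; exact Or.inl hi
    · change N S P (g + (![(0 : ZMod 3), 1, -1] : Fin 3 → ZMod 3) 1 • c) ≤ N S P c at hi
      rw [e1] at hi; exact Or.inr (Or.inl hi)
    · change N S P (g + (![(0 : ZMod 3), 1, -1] : Fin 3 → ZMod 3) 2 • c) ≤ N S P c at hi
      rw [e2] at hi; exact Or.inr (Or.inr hi)

theorem pair_dom3 [Infinite A] (S : H.Scal (ZMod 3)) {a b : A} (ha : a ≠ 0) (hb : b ≠ 0) :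
    ∃ Ψ : Finset A, ∀ P R : Submodule (ZMod 3) A, Perf H P R →
      (∀ x ∈ Submodule.span (ZMod 3) (Ψ : Set A), x ∈ P → x = 0) →
      ∃ z ∈ Ψ, z ≠ 0 ∧ N S P z ≤ N S P a ∧ N S P z ≤ N S P b := by
  classical
  obtain ⟨T, hT, hTc⟩ := Infinite.exists_superset_card_eq ({a, b} : Finset A) 10
    (Finset.card_le_two.trans (by norm_num))
  set D := Submodule.span (ZMod 3) (T : Set A) with hD
  have hDf : (D : Set A).Finite := span_finite (p := 3) _ (Finset.finite_toSet T)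
  set Z : Set A := (D : Set A) ∪ Set.image2 (fun g o => H.U g (H.inv o)) D D with hZ
  have hZf : Z.Finite := hDf.union (hDf.image2 _ hDf)
  set W := Submodule.span (ZMod 3) Z with hW
  have hWf : (W : Set A).Finite := span_finite (p := 3) _ hZf
  have hDW : D ≤ W := fun x hx => Submodule.subset_span (Or.inl hx)
  refine ⟨hWf.toFinset, fun P R h hP => ?_⟩
  rw [Set.Finite.coe_toFinset, Submodule.span_eq] at hP
  have haD : a ∈ D := Submodule.subset_span (hT (by simp))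
  have hbD : b ∈ D := Submodule.subset_span (hT (by simp))
  have h3 : ∀ x : A, x + x + x = 0 := by
    intro x
    have e : ((1 : ZMod 3) + 1 + 1) • x = x + x + x := by
      rw [add_smul, add_smul, one_smul]
    rw [← e]
    have : ((1 : ZMod 3) + 1 + 1) = 0 := by decide
    rw [this, zero_smul]
  obtain ⟨y, hyW, hy0, hy⟩ := dominator3 (F := fun z => N S P z) h3 (ord3 h S hP)
    (D := D.toAddSubgroup) hWf hDW (fun g o => H.U g (H.inv o))
    (fun g hg o ho hg0 ho0 => ⟨Submodule.subset_span (Or.inr ⟨g, hg, o, ho, rfl⟩),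
      fun h0 => H.inv_ne o ho0 (H.U_inj hg0 h0)⟩)
    (fun g _ o _ _ ho0 hle => inv_ge S ho0 hle)
    (fun g _ o _ hg0 ho0 hle => inv_ge' S hg0 ho0 hle)
    (by
      intro m _ m' _
      by_contra hcon
      push Not at hcon
      have hsub : T ⊆ (Finset.univ : Finset (ZMod 3 × ZMod 3)).image
          (fun q => (q.1.val : ℕ) • m + (q.2.val : ℕ) • m') := by
        intro w hw
        obtain ⟨r, s, hrs⟩ := hcon w (Submodule.subset_span hw)
        exact Finset.mem_image.2 ⟨(r, s), Finset.mem_univ _, hrs.symm⟩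
      have h1 := (Finset.card_le_card hsub).trans Finset.card_image_le
      rw [hTc] at h1
      have h2 : (Finset.univ : Finset (ZMod 3 × ZMod 3)).card = 9 := by decide
      omega)
    ⟨a, haD, ha⟩
  exact ⟨y, by rw [Set.Finite.mem_toFinset]; exact hyW, hy0, hy a haD ha, hy b hbD hb⟩

end Three

section Final

variable {p : ℕ} [hp : Fact p.Prime] [Module (ZMod p) A] {H : HS A}

theorem pair_dom [Infinite A] (hp2 : p ≠ 2) (S : H.Scal (ZMod p)) {a b : A}
    (ha : a ≠ 0) (hb : b ≠ 0) :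
    ∃ Ψ : Finset A, ∀ P R : Submodule (ZMod p) A, Perf H P R →
      (∀ x ∈ Submodule.span (ZMod p) (Ψ : Set A), x ∈ P → x = 0) →
      ∃ z ∈ Ψ, z ≠ 0 ∧ N S P z ≤ N S P a ∧ N S P z ≤ N S P b := by
  have key : ∀ q : ℕ, q.Prime → q ≠ p → ((q : ℕ) : ZMod p) ≠ 0 := by
    intro q hq hqp h0
    rw [ZMod.natCast_eq_zero_iff] at h0
    exact hqp ((Nat.prime_dvd_prime_iff_eq hp.out hq).1 h0).symm
  by_cases hp3 : p = 3
  · subst hp3
    exact pair_dom3 S ha hb
  · exact pair_dom5 S (by exact_mod_cast key 2 Nat.prime_two (fun h => hp2 h.symm))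
      (by exact_mod_cast key 3 Nat.prime_three (fun h => hp3 h.symm)) ha hb

/-- Every finite set has a dominator in a finite set which does not depend on the perfect pair,
as soon as the span of that finite set meets the disc trivially. -/
theorem directed [Infinite A] (hp2 : p ≠ 2) (S : H.Scal (ZMod p)) (F : Finset A) :
    ∃ Φ : Finset A, ∀ P R : Submodule (ZMod p) A, Perf H P R →
      (∀ x ∈ Submodule.span (ZMod p) (Φ : Set A), x ∈ P → x = 0) →
      ∃ y ∈ Φ, y ≠ 0 ∧ ∀ c ∈ F, c ≠ 0 → N S P y ≤ N S P c := by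
  classical
  induction F using Finset.induction_on with
  | empty =>
    refine ⟨{H.one}, fun P R _ _ => ⟨H.one, Finset.mem_singleton_self _, H.one_ne, ?_⟩⟩
    intro c hc
    exact absurd hc (Finset.notMem_empty c)
  | insert c F _ ih =>
    obtain ⟨Φ, hΦ⟩ := ih
    by_cases hc0 : c = 0
    · refine ⟨Φ, fun P R h hP => ?_⟩
      obtain ⟨y, hy, hy0, hyF⟩ := hΦ P R h hP
      refine ⟨y, hy, hy0, fun d hd hd0 => ?_⟩
      rcases Finset.mem_insert.1 hd with rfl | hd
      · exact absurd hc0 hd0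
      · exact hyF d hd hd0
    have hex : ∀ y : A, ∃ Ψ : Finset A, y ≠ 0 → ∀ P R : Submodule (ZMod p) A, Perf H P R →
        (∀ x ∈ Submodule.span (ZMod p) (Ψ : Set A), x ∈ P → x = 0) →
        ∃ z ∈ Ψ, z ≠ 0 ∧ N S P z ≤ N S P y ∧ N S P z ≤ N S P c := by
      intro y
      by_cases hy0 : y = 0
      · exact ⟨∅, fun h => absurd hy0 h⟩
      · obtain ⟨Ψ, hΨ⟩ := pair_dom hp2 S hy0 hc0
        exact ⟨Ψ, fun _ => hΨ⟩
    choose Ψ hΨ using hex
    refine ⟨Φ ∪ Φ.biUnion Ψ, fun P R h hP => ?_⟩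
    obtain ⟨y, hy, hy0, hyF⟩ := hΦ P R h (fun x hx => hP x (Submodule.span_mono (by
      intro z hz
      exact Finset.mem_coe.2 (Finset.mem_union_left _ (Finset.mem_coe.1 hz))) hx))
    have hsub : Ψ y ⊆ Φ ∪ Φ.biUnion Ψ := fun z hz =>
      Finset.mem_union_right _ (Finset.mem_biUnion.2 ⟨y, hy, hz⟩)
    obtain ⟨z, hz, hz0, hzy, hzc⟩ := hΨ y hy0 P R h (fun x hx => hP x (Submodule.span_mono (by
      intro z hz
      exact Finset.mem_coe.2 (hsub (Finset.mem_coe.1 hz))) hx))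
    refine ⟨z, hsub hz, hz0, fun d hd hd0 => ?_⟩
    rcases Finset.mem_insert.1 hd with rfl | hd
    · exact hzc
    · exact hzy.trans (hyF d hd hd0)

end Final

end Pool.Agent.HuaPerf95
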